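import Pool.Agent.Helper10.BD.Stm

/-!
# Project BD: module REG (regularisation)
-/

set_option autoImplicit false

namespace Pool.Agent.Helper47.BD

open MvPolynomial Pool.Agent.Helper10.BD

universe u

/-- the numbers of the forms of the degrees `e + 1`, `e < D` -/
def cnt (D : ℕ) {ι : Type} [Fintype ι] (d : ι → ℕ) : Fin D → ℕ :=
  fun e => (Finset.univ.filter fun j => d j = (e : ℕ)).card

theorem cnt_eq (D : ℕ) {ι : Type} [Fintype ι] (d : ι → ℕ) (e : Fin D) :
    cnt D d e = ∑ j, if d j = (e : ℕ) then 1 else 0 := by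
  unfold cnt
  rw [Finset.card_filter]

theorem cnt_equiv (D : ℕ) {ι ι' : Type} [Fintype ι] [Fintype ι'] (σ : ι' ≃ ι) (d : ι → ℕ) :
    cnt D (fun j => d (σ j)) = cnt D d := by
  funext e
  rw [cnt_eq, cnt_eq]
  exact Equiv.sum_comp σ fun j => if d j = (e : ℕ) then 1 else 0

theorem sum_cnt (D : ℕ) {ι : Type} [Fintype ι] (d : ι → ℕ) (hd : ∀ j, d j < D) :
    ∑ e, cnt D d e = Fintype.card ι := by
  simp only [cnt_eq]
  rw [Finset.sum_comm]
  have h1 : ∀ j : ι, ∑ e : Fin D, (if d j = (e : ℕ) then 1 else 0) = 1 := by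
    intro j
    rw [Finset.sum_eq_single (⟨d j, hd j⟩ : Fin D)]
    · rw [if_pos rfl]
    · intro b _ hb
      rw [if_neg]
      intro h
      exact hb (Fin.ext h.symm)
    · intro h
      exact absurd (Finset.mem_univ _) h
  rw [Finset.sum_congr rfl fun j _ => h1 j, Finset.sum_const, smul_eq_mul, mul_one,
    Finset.card_univ]

/-- the order of the induction -/
def Low {D : ℕ} (κ' κ : Fin D → ℕ) : Prop := Pi.Lex (· > ·) (fun {_} => (· < ·)) κ' κ

theorem low_wf (D : ℕ) : WellFounded (Low (D := D)) := by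
  have := Pi.Lex.wellFounded (ι := Fin D) (α := fun _ => ℕ) (· > ·) (s := fun _ => (· < ·))
    fun _ => Nat.lt_wfRel.wf
  exact this

/-- one step of the regularisation -/
theorem step {K : Type u} [Field K] {n s D t : ℕ} (d : Fin s → ℕ)
    (u : Fin s → MvPolynomial (Fin n) K) (hd : ∀ j, d j < D)
    (hu : ∀ j, (u j).IsHomogeneous (d j + 1)) (hreg : ¬ Reg t d u) :
    ∃ (s' : ℕ) (d' : Fin s' → ℕ) (u' : Fin s' → MvPolynomial (Fin n) K), (∀ j, d' j < D) ∧
      (∀ j, (u' j).IsHomogeneous (d' j + 1)) ∧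
      Algebra.adjoin K (Set.range u) ≤ Algebra.adjoin K (Set.range u') ∧
      Low (cnt D d') (cnt D d) ∧ ∀ e, cnt D d' e ≤ cnt D d e + 2 * t := by
  classical
  unfold Reg at hreg
  push Not at hreg
  obtain ⟨e, c, hc0, hc, m, p, q, a, b, hm, hab, heq⟩ := hreg
  obtain ⟨j₀, hj₀⟩ := Function.ne_iff.1 hc0
  have hj₀' : c j₀ ≠ 0 := hj₀
  have hdj : d j₀ = e := hc j₀ hj₀'
  have heD : e < D := by
    have := hd j₀
    omega
  let ι' : Type := {j : Fin s // j ≠ j₀} ⊕ (Fin m ⊕ Fin m)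
  let d₁ : ι' → ℕ := Sum.elim (fun j => d j.1) (Sum.elim (fun i => p i - 1) (fun i => q i - 1))
  let u₁ : ι' → MvPolynomial (Fin n) K := Sum.elim (fun j => u j.1) (Sum.elim a b)
  let σ : Fin (Fintype.card ι') ≃ ι' := (Fintype.equivFin ι').symm
  have hcnt : ∀ e' : Fin D, cnt D (fun j => d₁ (σ j)) e' =
      (∑ j : {j : Fin s // j ≠ j₀}, if d j.1 = (e' : ℕ) then 1 else 0) +
        ((∑ i, if p i - 1 = (e' : ℕ) then 1 else 0) +
          ∑ i, if q i - 1 = (e' : ℕ) then 1 else 0) := by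
    intro e'
    rw [cnt_equiv, cnt_eq, Fintype.sum_sum_type, Fintype.sum_sum_type]
    rfl
  have hcnt2 : ∀ e' : Fin D, cnt D d e' = (if e = (e' : ℕ) then 1 else 0) +
      ∑ j : {j : Fin s // j ≠ j₀}, if d j.1 = (e' : ℕ) then 1 else 0 := by
    intro e'
    rw [cnt_eq, Fintype.sum_eq_add_sum_subtype_ne _ j₀, hdj]
  have hle : ∀ (r : Fin m → ℕ) (e' : ℕ), (∑ i, if r i - 1 = e' then 1 else 0) ≤ t := by
    intro r e'
    calc (∑ i, if r i - 1 = e' then 1 else 0) ≤ ∑ _i : Fin m, 1 :=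
          Finset.sum_le_sum fun i _ => by split_ifs <;> omega
      _ = m := by rw [Finset.sum_const, Finset.card_univ, Fintype.card_fin, smul_eq_mul, mul_one]
      _ ≤ t := hm
  refine ⟨_, fun j => d₁ (σ j), fun j => u₁ (σ j), ?_, ?_, ?_, ?_, ?_⟩
  · intro j
    rcases h : σ j with j' | i | i
    · change d₁ (σ j) < D
      rw [h]
      exact hd _
    · change d₁ (σ j) < D
      rw [h]
      change p i - 1 < D
      obtain ⟨h1, h2, h3, _⟩ := hab i
      omega
    · change d₁ (σ j) < D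
      rw [h]
      change q i - 1 < D
      obtain ⟨h1, h2, h3, _⟩ := hab i
      omega
  · intro j
    rcases h : σ j with j' | i | i
    · change (u₁ (σ j)).IsHomogeneous (d₁ (σ j) + 1)
      rw [h]
      exact hu _
    · change (u₁ (σ j)).IsHomogeneous (d₁ (σ j) + 1)
      rw [h]
      change (a i).IsHomogeneous (p i - 1 + 1)
      obtain ⟨h1, h2, h3, h4, h5⟩ := hab i
      rw [Nat.sub_add_cancel h1]
      exact h4
    · change (u₁ (σ j)).IsHomogeneous (d₁ (σ j) + 1)
      rw [h]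
      change (b i).IsHomogeneous (q i - 1 + 1)
      obtain ⟨h1, h2, h3, h4, h5⟩ := hab i
      rw [Nat.sub_add_cancel h2]
      exact h5
  · have hr : Set.range (fun j => u₁ (σ j)) = Set.range u₁ := by
      have := EquivLike.range_comp u₁ σ
      exact this
    rw [hr]
    have hmem : ∀ x : ι', u₁ x ∈ Algebra.adjoin K (Set.range u₁) := fun x =>
      Algebra.subset_adjoin ⟨x, rfl⟩
    refine Algebra.adjoin_le ?_
    rintro _ ⟨j, rfl⟩
    by_cases hj : j = j₀
    · subst hj
      have h1 : u j = (c j)⁻¹ • ((∑ i, a i * b i) - ∑ j' : {j' : Fin s // j' ≠ j}, c j'.1 • u j'.1) := by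
        rw [← heq, Fintype.sum_eq_add_sum_subtype_ne (fun i => c i • u i) j, add_sub_cancel_right,
          smul_smul, inv_mul_cancel₀ hj₀', one_smul]
      rw [h1]
      refine Subalgebra.smul_mem _ (Subalgebra.sub_mem _ ?_ ?_) _
      · exact Subalgebra.sum_mem _ fun i _ => Subalgebra.mul_mem _ (hmem (Sum.inr (Sum.inl i)))
          (hmem (Sum.inr (Sum.inr i)))
      · exact Subalgebra.sum_mem _ fun j' _ => Subalgebra.smul_mem _ (hmem (Sum.inl j')) _
    · exact hmem (Sum.inl ⟨j, hj⟩)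
  · refine ⟨⟨e, heD⟩, ?_, ?_⟩
    · intro e' he'
      have he : e < (e' : ℕ) := he'
      rw [hcnt, hcnt2, if_neg (by omega)]
      have h1 : ∀ i, ¬ (p i - 1 = (e' : ℕ)) := fun i => by
        obtain ⟨h1, h2, h3, _⟩ := hab i
        omega
      have h2 : ∀ i, ¬ (q i - 1 = (e' : ℕ)) := fun i => by
        obtain ⟨h1, h2, h3, _⟩ := hab i
        omega
      simp only [h1, h2, if_false, Finset.sum_const_zero, add_zero, zero_add]
    · change cnt D (fun j => d₁ (σ j)) ⟨e, heD⟩ < cnt D d ⟨e, heD⟩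
      rw [hcnt, hcnt2]
      have h1 : ∀ i, ¬ (p i - 1 = e) := fun i => by
        obtain ⟨h1, h2, h3, _⟩ := hab i
        omega
      have h2 : ∀ i, ¬ (q i - 1 = e) := fun i => by
        obtain ⟨h1, h2, h3, _⟩ := hab i
        omega
      simp only [h1, h2, if_false, Finset.sum_const_zero, add_zero, if_true]
      omega
  · intro e'
    rw [hcnt, hcnt2]
    have h1 := hle p e'
    have h2 := hle q e'
    omega

/-- the induction -/
theorem key (D : ℕ) (τ : (Fin D → ℕ) → ℕ) (κ : Fin D → ℕ) : ∃ S : ℕ, ∀ (K : Type u) [Field K]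
    (n s : ℕ) (d : Fin s → ℕ) (u : Fin s → MvPolynomial (Fin n) K), (∀ j, d j < D) →
      (∀ j, (u j).IsHomogeneous (d j + 1)) → cnt D d = κ →
      ∃ (s' : ℕ) (d' : Fin s' → ℕ) (u' : Fin s' → MvPolynomial (Fin n) K), s' ≤ S ∧
        (∀ j, d' j < D) ∧ (∀ j, (u' j).IsHomogeneous (d' j + 1)) ∧
        Algebra.adjoin K (Set.range u) ≤ Algebra.adjoin K (Set.range u') ∧
        Reg (τ (cnt D d')) d' u' := by
  classical
  induction κ using (low_wf D).induction with
  | _ κ ih =>
    choose! S hS using ih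
    obtain ⟨A, hA⟩ : ∃ A : Finset (Fin D → ℕ), A =
      Fintype.piFinset fun e => Finset.range (κ e + 2 * τ κ + 1) := ⟨_, rfl⟩
    refine ⟨(∑ e, κ e) + ∑ κ' ∈ A, S κ', fun K _ n s d u hd hu hκ => ?_⟩
    by_cases hreg : Reg (τ (cnt D d)) d u
    · refine ⟨s, d, u, ?_, hd, hu, le_rfl, hreg⟩
      have h1 := sum_cnt D d hd
      rw [Fintype.card_fin, hκ] at h1
      omega
    · obtain ⟨s₁, d₁, u₁, hd₁, hu₁, hle₁, hlow, hbd⟩ := step d u hd hu hreg
      rw [hκ] at hlow hbd
      obtain ⟨s', d', u', hs', hd', hu', hle', hreg'⟩ := hS _ hlow K n s₁ d₁ u₁ hd₁ hu₁ rfl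
      refine ⟨s', d', u', hs'.trans ?_, hd', hu', hle₁.trans hle', hreg'⟩
      have hmem : cnt D d₁ ∈ A := by
        rw [hA, Fintype.mem_piFinset]
        intro e
        rw [Finset.mem_range]
        have := hbd e
        omega
      have h2 := Finset.single_le_sum (f := S) (fun x _ => Nat.zero_le (S x)) hmem
      omega

theorem s_REG : S_REG.{u} := by
  classical
  intro r D τ
  obtain ⟨S, hS⟩ := key.{u} D τ (fun _ => r)
  refine ⟨S, fun K _ n f hf => ?_⟩
  let σ : Fin (Fintype.card (Fin r × Fin D)) ≃ Fin r × Fin D := (Fintype.equivFin _).symm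
  let d₀ : Fin r × Fin D → ℕ := fun x => (x.2 : ℕ)
  let u₀ : Fin r × Fin D → MvPolynomial (Fin n) K := fun x =>
    homogeneousComponent ((x.2 : ℕ) + 1) (f x.1)
  have hcnt : cnt D (fun j => d₀ (σ j)) = fun _ => r := by
    rw [cnt_equiv]
    funext e
    rw [cnt_eq, Fintype.sum_prod_type]
    have h1 : ∀ i : Fin r, (∑ y : Fin D, if d₀ (i, y) = (e : ℕ) then 1 else 0) = 1 := by
      intro i
      rw [Finset.sum_eq_single e]
      · exact if_pos rfl
      · intro b _ hb
        refine if_neg ?_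
        intro h
        exact hb (Fin.ext h)
      · intro h
        exact absurd (Finset.mem_univ _) h
    rw [Finset.sum_congr rfl fun i _ => h1 i, Finset.sum_const, smul_eq_mul, mul_one,
      Finset.card_univ, Fintype.card_fin]
  obtain ⟨s', d', u', hs', hd', hu', hle, hreg⟩ := hS K n _ (fun j => d₀ (σ j))
    (fun j => u₀ (σ j)) (fun j => (σ j).2.2)
    (fun j => homogeneousComponent_isHomogeneous _ _) hcnt
  refine ⟨s', d', u', hs', hd', hu', fun i => hle ?_, hreg⟩
  have hr : Set.range (fun j => u₀ (σ j)) = Set.range u₀ := by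
    have := EquivLike.range_comp u₀ σ
    exact this
  rw [hr]
  have h1 := sum_homogeneousComponent (f i)
  rw [← h1]
  refine Subalgebra.sum_mem _ fun e he => ?_
  rw [Finset.mem_range] at he
  rcases Nat.eq_zero_or_pos e with h0 | h0
  · subst h0
    rw [homogeneousComponent_zero]
    exact Subalgebra.algebraMap_mem _ _
  · have h2 := hf i
    refine Algebra.subset_adjoin ⟨(i, ⟨e - 1, by omega⟩), ?_⟩
    change homogeneousComponent (e - 1 + 1) (f i) = _
    rw [Nat.sub_add_cancel h0]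

end Pool.Agent.Helper47.BD
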