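import Pool.Agent.Helper10.BD.Stm

/-!
# Project BD: module TR
-/

set_option autoImplicit false

namespace Pool.Agent.Helper47.BD

open MvPolynomial Pool.Agent.Helper10.BD

universe u

/-- a point of a finitely generated algebra which is a domain, over an algebraically closed field -/
theorem exists_rho {k : Type u} [Field k] [IsAlgClosed k] (B : Type u) [CommRing B] [Nontrivial B]
    [Algebra k B] [Algebra.FiniteType k B] : Nonempty (B →ₐ[k] k) := by
  obtain ⟨M, hM⟩ := Ideal.exists_maximal B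
  let _ : Field (B ⧸ M) := Ideal.Quotient.field M
  have h1 : Module.Finite k (B ⧸ M) := finite_of_finite_type_of_isJacobsonRing k (B ⧸ M)
  have h2 : Function.Bijective (algebraMap k (B ⧸ M)) :=
    IsAlgClosed.algebraMap_bijective_of_isIntegral
  let e : k ≃ₐ[k] (B ⧸ M) := AlgEquiv.ofBijective (Algebra.ofId k (B ⧸ M)) h2
  exact ⟨e.symm.toAlgHom.comp (Ideal.Quotient.mkₐ k M)⟩

theorem exists_lift {n : ℕ} {B Ω : Type u} [CommRing B] [CommRing Ω] (f : B →+* Ω)
    (p : MvPolynomial (Fin n) Ω) (h : ∀ α, coeff α p ∈ f.range) :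
    ∃ q : MvPolynomial (Fin n) B, map f q = p := by
  have h1 : p ∈ Set.range (MvPolynomial.map (σ := Fin n) f) := by
    rw [mem_range_map_iff_coeffs_subset]
    intro x hx
    rw [Finset.mem_coe, mem_coeffs_iff] at hx
    obtain ⟨α, _, rfl⟩ := hx
    exact h α
  exact h1

theorem hom_lift {n d : ℕ} {B Ω : Type u} [CommRing B] [CommRing Ω] (f : B →+* Ω)
    (hf : Function.Injective f) {p : MvPolynomial (Fin n) B} (h : (map f p).IsHomogeneous d) :
    p.IsHomogeneous d := by
  intro α hα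
  apply h
  rw [coeff_map]
  exact fun h0 => hα (hf (h0.trans (map_zero f).symm))

theorem s_TR : S_TR.{u} := by
  classical
  intro k _ _ Ω _ _ n m e t w j₀ c hc ⟨m', p, q, a, b, hm, hab, heq⟩
  -- scaling
  obtain ⟨c₁, hc₁⟩ : ∃ c₁ : Fin m → Ω, c₁ = fun i => (c j₀)⁻¹ * c i := ⟨_, rfl⟩
  obtain ⟨a₁, ha₁⟩ : ∃ a₁ : Fin m' → MvPolynomial (Fin n) Ω, a₁ = fun i => C (c j₀)⁻¹ * a i :=
    ⟨_, rfl⟩
  have heq₁ : ∑ i, c₁ i • map (algebraMap k Ω) (w i) = ∑ i, a₁ i * b i := by
    have h1 := congrArg (fun z => C (c j₀)⁻¹ * z) heq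
    simp only [Finset.mul_sum] at h1
    have h2 : ∑ i, c₁ i • map (algebraMap k Ω) (w i) =
        ∑ i, C (c j₀)⁻¹ * (c i • map (algebraMap k Ω) (w i)) := by
      refine Finset.sum_congr rfl fun i _ => ?_
      rw [hc₁, smul_eq_C_mul, smul_eq_C_mul, map_mul, mul_assoc]
    rw [h2, h1]
    refine Finset.sum_congr rfl fun i _ => ?_
    rw [ha₁, mul_assoc]
  have ha₁h : ∀ i, (a₁ i).IsHomogeneous (p i) := by
    intro i
    have h1 := (isHomogeneous_C (Fin n) (c j₀)⁻¹).mul (hab i).2.2.2.1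
    rw [zero_add] at h1
    rw [ha₁]
    exact h1
  have hc₁j : c₁ j₀ = 1 := by rw [hc₁]; exact inv_mul_cancel₀ hc
  -- the algebra of the coefficients
  obtain ⟨S, hS⟩ : ∃ S : Finset Ω, S = Finset.univ.image c₁ ∪
      (Finset.univ.biUnion fun i => (a₁ i).coeffs) ∪
      (Finset.univ.biUnion fun i => (b i).coeffs) := ⟨_, rfl⟩
  let B := Algebra.adjoin k (S : Set Ω)
  have hfg : Algebra.FiniteType k B := (Subalgebra.fg_iff_finiteType B).1 ⟨S, rfl⟩
  obtain ⟨ρ⟩ := exists_rho (k := k) B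
  let j : B →+* Ω := algebraMap B Ω
  have hj : Function.Injective j := Subtype.val_injective
  have hmem : ∀ x ∈ S, x ∈ j.range := fun x hx => ⟨⟨x, Algebra.subset_adjoin hx⟩, rfl⟩
  have hcl : ∀ i, ∃ y, j y = c₁ i := fun i => hmem _ (by
    rw [hS]
    exact Finset.mem_union_left _ (Finset.mem_union_left _
      (Finset.mem_image_of_mem _ (Finset.mem_univ _))))
  have hco : ∀ (f : MvPolynomial (Fin n) Ω), (f.coeffs ⊆ S) → ∀ α, coeff α f ∈ j.range := by
    intro f hf α
    by_cases h0 : coeff α f = 0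
    · rw [h0]
      exact zero_mem _
    · exact hmem _ (hf (coeff_mem_coeffs α h0))
  have hal : ∀ i, ∃ y, map j y = a₁ i := fun i => exists_lift j _ (hco _ (by
    rw [hS]
    exact (Finset.subset_biUnion_of_mem (fun i => (a₁ i).coeffs) (Finset.mem_univ i)).trans
      (Finset.subset_union_right.trans Finset.subset_union_left)))
  have hbl : ∀ i, ∃ y, map j y = b i := fun i => exists_lift j _ (hco _ (by
    rw [hS]
    exact (Finset.subset_biUnion_of_mem (fun i => (b i).coeffs) (Finset.mem_univ i)).trans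
      Finset.subset_union_right))
  choose c₂ hc₂ using hcl
  choose a₂ ha₂ using hal
  choose b₂ hb₂ using hbl
  have heq₂ : ∑ i, c₂ i • map (algebraMap k B) (w i) = ∑ i, a₂ i * b₂ i := by
    apply map_injective j hj
    rw [map_sum, map_sum]
    have h1 : ∑ i, map j (c₂ i • map (algebraMap k B) (w i)) =
        ∑ i, c₁ i • map (algebraMap k Ω) (w i) := by
      refine Finset.sum_congr rfl fun i _ => ?_
      rw [smul_eq_C_mul, smul_eq_C_mul, map_mul, map_C, hc₂, map_map]
      congr 2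
    rw [h1, heq₁]
    refine Finset.sum_congr rfl fun i _ => ?_
    rw [map_mul, ha₂, hb₂]
  refine ⟨fun i => ρ (c₂ i), ?_, ?_, m', p, q, fun i => map (ρ : B →+* k) (a₂ i),
    fun i => map (ρ : B →+* k) (b₂ i), hm, ?_, ?_⟩
  · have h1 : c₂ j₀ = 1 := hj (by rw [hc₂, hc₁j, map_one])
    change ρ (c₂ j₀) ≠ 0
    rw [h1, map_one]
    exact one_ne_zero
  · intro i hi
    have h1 : c₂ i = 0 := hj (by rw [hc₂, hc₁, map_zero]; change _ * c i = 0; rw [hi, mul_zero])
    change ρ (c₂ i) = 0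
    rw [h1, map_zero]
  · intro i
    obtain ⟨h1, h2, h3, _, h5⟩ := hab i
    refine ⟨h1, h2, h3, ?_, ?_⟩
    · exact (hom_lift j hj (by rw [ha₂]; exact ha₁h i)).map _
    · exact (hom_lift j hj (by rw [hb₂]; exact h5)).map _
  · have h1 := congrArg (map (ρ : B →+* k)) heq₂
    rw [map_sum, map_sum] at h1
    have h2 : ∑ i, map (ρ : B →+* k) (c₂ i • map (algebraMap k B) (w i)) =
        ∑ i, ρ (c₂ i) • w i := by
      refine Finset.sum_congr rfl fun i _ => ?_
      rw [smul_eq_C_mul, smul_eq_C_mul, map_mul, map_C, map_map]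
      have h3 : (ρ : B →+* k).comp (algebraMap k B) = RingHom.id k := by
        ext x
        exact ρ.commutes x
      rw [h3, map_id]
      rfl
    rw [← h2, h1]
    refine Finset.sum_congr rfl fun i _ => ?_
    rw [map_mul]

end Pool.Agent.Helper47.BD
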